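import Pool.Agent.H33.Cubic.Second
import Pool.Agent.H24.LJ.Pairs

/-!
# Second moment of the number of primes `m ^ 3 + k`, `m ≤ M`, over `k ≤ X`, for arbitrary `M`

`second_cubes_loc` is `H33/Cubic/Second.second_cubes` without the restriction `M ^ 3 ≤ X` (the prime counts are made in the
intervals `(m ^ 3, m ^ 3 + X]`, with `H24/LJ/Pairs`).  `pos_prop` is the Paley-Zygmund step: a lower bound of the right order for
the first moment gives a positive proportion of `k`.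
-/

set_option autoImplicit false

namespace Pool.Agent.H96.FM

open Finset Pool.Agent.H5.Short Pool.Agent.H24.LJ Pool.Agent.H33.Cubic

/-- Second moment bound along cubes, arbitrary `M`. -/
theorem second_cubes_loc : ∃ C : ℝ, 0 < C ∧ ∀ X M : ℕ, 2 ≤ X → 
    ∑ k ∈ Icc 1 X, (nk k M : ℝ) ^ 2 ≤
      C * (M * X / Real.log X + (M : ℝ) ^ 2 * X / (Real.log X) ^ 2) := by
  obtain ⟨C1, hC1, hpi⟩ := pi_loc
  obtain ⟨C2, hC2, hpairs⟩ := pairs_loc
  obtain ⟨C3, hC3, hw⟩ := sum_weight_cubes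
  refine ⟨C1 + C2 * C3, by positivity, ?_⟩
  intro X M hX 
  have hXR : (2 : ℝ) ≤ X := by exact_mod_cast hX
  have hX0 : (0 : ℝ) < X := by linarith
  have hlog : 0 < Real.log X := Real.log_pos (by linarith)
  set B : ℕ → ℕ → ℝ := fun m n => ∑ k ∈ Icc 1 X,
    (if (m ^ 3 + k).Prime then (1 : ℝ) else 0) * (if (n ^ 3 + k).Prime then (1 : ℝ) else 0) with hB
  have hBsymm : ∀ m n, B m n = B n m := by
    intro m n
    simp only [hB]
    exact sum_congr rfl fun k _ => mul_comm _ _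
  have hsq : ∀ k, (nk k M : ℝ) ^ 2 = ∑ m ∈ Icc 1 M, ∑ n ∈ Icc 1 M,
      (if (m ^ 3 + k).Prime then (1 : ℝ) else 0) * (if (n ^ 3 + k).Prime then (1 : ℝ) else 0) := by
    intro k
    have h1 : (nk k M : ℝ) = ∑ m ∈ Icc 1 M, (if (m ^ 3 + k).Prime then (1 : ℝ) else 0) := by
      unfold nk
      rw [← sum_filter, sum_const, nsmul_eq_mul, mul_one]
    rw [h1, sq, sum_mul_sum]
  have htot : ∑ k ∈ Icc 1 X, (nk k M : ℝ) ^ 2 = ∑ m ∈ Icc 1 M, ∑ n ∈ Icc 1 M, B m n := by
    simp_rw [hsq]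
    rw [sum_comm]
    apply sum_congr rfl
    intro m _
    rw [sum_comm]
  have hdiag : ∀ m ∈ Icc 1 M, B m m ≤ C1 * X / Real.log X := by
    intro m hm
    have h1 : B m m = (((Icc 1 X).filter (fun k => (m ^ 3 + k).Prime)).card : ℝ) := by
      simp only [hB]
      rw [card_filter]
      push_cast
      apply sum_congr rfl
      intro k _
      split_ifs <;> simp
    have h2 : ((Icc 1 X).filter (fun k => (m ^ 3 + k).Prime)).card ≤
        ((Ioc (m ^ 3) (m ^ 3 + X)).filter Nat.Prime).card := by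
      apply Finset.card_le_card_of_injOn (fun k => m ^ 3 + k)
      · intro k hk
        rw [mem_coe, mem_filter, mem_Icc] at hk
        rw [mem_coe, mem_filter, mem_Ioc]
        have h3 : m ^ 3 < m ^ 3 + k ∧ m ^ 3 + k ≤ m ^ 3 + X := ⟨by omega, by omega⟩
        exact ⟨h3, hk.2⟩
      · intro a _ b _ hab
        have hab' : m ^ 3 + a = m ^ 3 + b := hab
        omega
    have h3 := hpi (m ^ 3) X hX
    rw [h1]
    calc (((Icc 1 X).filter (fun k => (m ^ 3 + k).Prime)).card : ℝ)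
        ≤ (((Ioc (m ^ 3) (m ^ 3 + X)).filter Nat.Prime).card : ℝ) := by exact_mod_cast h2
      _ ≤ _ := h3
  have hoff1 : ∀ m n, m ∈ Icc 1 M → n ∈ Icc 1 M → m < n → B m n ≤
      C2 * X / (Real.log X) ^ 2 * (1 + ∑ p ∈ (2 * cd m n).primeFactors, 1 / Real.sqrt p) := by
    intro m n hm hn hmn
    have hd1 : 1 ≤ cd m n := cd_pos hmn.ne
    have hcd := cd_of_lt hmn
    have h1 : B m n = (((Icc 1 X).filter
        (fun k => (m ^ 3 + k).Prime ∧ (n ^ 3 + k).Prime)).card : ℝ) := by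
      simp only [hB]
      rw [card_filter]
      push_cast
      apply sum_congr rfl
      intro k _
      by_cases h5 : (m ^ 3 + k).Prime <;> by_cases h6 : (n ^ 3 + k).Prime <;> simp [h5, h6]
    have h2 : ((Icc 1 X).filter (fun k => (m ^ 3 + k).Prime ∧ (n ^ 3 + k).Prime)).card ≤
        ((Ioc (m ^ 3) (m ^ 3 + X)).filter (fun p => p.Prime ∧ (p + cd m n).Prime)).card := by
      apply Finset.card_le_card_of_injOn (fun k => m ^ 3 + k)
      · intro k hk
        rw [mem_coe, mem_filter, mem_Icc] at hk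
        rw [mem_coe, mem_filter, mem_Ioc]
        have h3 : m ^ 3 < m ^ 3 + k ∧ m ^ 3 + k ≤ m ^ 3 + X := ⟨by omega, by omega⟩
        refine ⟨h3, hk.2.1, ?_⟩
        have h4 : m ^ 3 + k + cd m n = n ^ 3 + k := by omega
        rw [h4]
        exact hk.2.2
      · intro a _ b _ hab
        have hab' : m ^ 3 + a = m ^ 3 + b := hab
        omega
    have h3 := hpairs (m ^ 3) X (cd m n) hX hd1
    rw [h1]
    calc (((Icc 1 X).filter (fun k => (m ^ 3 + k).Prime ∧ (n ^ 3 + k).Prime)).card : ℝ)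
        ≤ (((Ioc (m ^ 3) (m ^ 3 + X)).filter (fun p => p.Prime ∧ (p + cd m n).Prime)).card : ℝ) := by
          exact_mod_cast h2
      _ ≤ C2 * (1 + ∑ p ∈ (2 * cd m n).primeFactors, 1 / Real.sqrt (p : ℝ)) *
            X / (Real.log X) ^ 2 := h3
      _ = _ := by ring
  have hoff : ∀ m n, m ∈ Icc 1 M → n ∈ Icc 1 M → m ≠ n → B m n ≤
      C2 * X / (Real.log X) ^ 2 * (1 + ∑ p ∈ (2 * cd m n).primeFactors, 1 / Real.sqrt p) := by
    intro m n hm hn hmn
    rcases Nat.lt_or_gt_of_ne hmn with h | h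
    · exact hoff1 m n hm hn h
    · rw [hBsymm, cd_comm]
      exact hoff1 n m hn hm h
  have hrow : ∀ m ∈ Icc 1 M, ∑ n ∈ Icc 1 M, B m n ≤
      C1 * X / Real.log X + C2 * X / (Real.log X) ^ 2 * (C3 * M) := by
    intro m hm
    rw [← add_sum_erase _ _ hm]
    apply add_le_add (hdiag m hm)
    calc ∑ n ∈ (Icc 1 M).erase m, B m n
        ≤ ∑ n ∈ (Icc 1 M).erase m, C2 * X / (Real.log X) ^ 2 *
            (1 + ∑ p ∈ (2 * cd m n).primeFactors, 1 / Real.sqrt (p : ℝ)) := by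
          apply sum_le_sum
          intro n hn
          rw [mem_erase] at hn
          exact hoff m n hm hn.2 (fun h => hn.1 h.symm)
      _ = C2 * X / (Real.log X) ^ 2 * ∑ n ∈ (Icc 1 M).erase m,
            (1 + ∑ p ∈ (2 * cd m n).primeFactors, 1 / Real.sqrt (p : ℝ)) := by rw [mul_sum]
      _ ≤ _ := by
          apply mul_le_mul_of_nonneg_left (hw M m hm)
          positivity
  rw [htot]
  refine (sum_le_sum hrow).trans ?_
  rw [sum_const, nsmul_eq_mul, Nat.card_Icc]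
  have hM0 : (0 : ℝ) ≤ M := Nat.cast_nonneg M
  have e1 : ((M + 1 - 1 : ℕ) : ℝ) = M := by simp
  rw [e1]
  have t1 : 0 ≤ (M : ℝ) * X / Real.log X := by positivity
  have t2 : 0 ≤ (M : ℝ) ^ 2 * X / (Real.log X) ^ 2 := by positivity
  have e2 : (M : ℝ) * (C1 * X / Real.log X + C2 * X / (Real.log X) ^ 2 * (C3 * M)) =
      C1 * (M * X / Real.log X) + C2 * C3 * ((M : ℝ) ^ 2 * X / (Real.log X) ^ 2) := by
    ring
  rw [e2]
  nlinarith [mul_nonneg (mul_pos hC2 hC3).le t1, mul_nonneg hC1.le t2]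

/-- The Paley-Zygmund step. -/
theorem pos_prop (c : ℝ) (hc : 0 < c) : ∃ c' : ℝ, 0 < c' ∧ ∀ X M : ℕ, 2 ≤ X →
    Real.log X ≤ M → c * (M * X / Real.log X) ≤ ∑ k ∈ Icc 1 X, (nk k M : ℝ) →
    c' * X ≤ (((Icc 1 X).filter (fun k => c' * (M / Real.log X) ≤ (nk k M : ℝ))).card : ℝ) := by
  obtain ⟨C, hC, hsec⟩ := second_cubes_loc
  refine ⟨min (c / 2) (c ^ 2 / (8 * C)), lt_min (by positivity) (by positivity), ?_⟩
  intro X M hX hM hfirst
  have hXR : (2 : ℝ) ≤ X := by exact_mod_cast hX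
  have hX0 : (0 : ℝ) < X := by linarith
  have hlog : 0 < Real.log X := Real.log_pos (by linarith)
  set c' := min (c / 2) (c ^ 2 / (8 * C)) with hc'
  have hc'1 : c' ≤ c / 2 := min_le_left _ _
  have hc'2 : c' ≤ c ^ 2 / (8 * C) := min_le_right _ _
  set R : ℝ := M / Real.log X with hR
  have hR1 : 1 ≤ R := by
    rw [hR, le_div_iff₀ hlog]; linarith
  have hR0 : 0 < R := by linarith
  set G := (Icc 1 X).filter (fun k => c' * R ≤ (nk k M : ℝ)) with hG
  have hsec' := hsec X M hX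
  have e1 : (M : ℝ) * X / Real.log X = X * R := by rw [hR]; ring
  have e2 : (M : ℝ) ^ 2 * X / (Real.log X) ^ 2 = X * R ^ 2 := by rw [hR]; ring
  rw [e1, e2] at hsec'
  rw [e1] at hfirst
  have hsec2 : ∑ k ∈ Icc 1 X, (nk k M : ℝ) ^ 2 ≤ 2 * C * X * R ^ 2 := by
    refine hsec'.trans ?_
    have : X * R ≤ X * R ^ 2 := by
      apply mul_le_mul_of_nonneg_left _ hX0.le
      nlinarith
    nlinarith
  -- the bad `k`
  have hbad : ∑ k ∈ (Icc 1 X).filter (fun k => ¬ c' * R ≤ (nk k M : ℝ)), (nk k M : ℝ) ≤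
      c / 2 * (X * R) := by
    calc ∑ k ∈ (Icc 1 X).filter (fun k => ¬ c' * R ≤ (nk k M : ℝ)), (nk k M : ℝ)
        ≤ ∑ k ∈ (Icc 1 X).filter (fun k => ¬ c' * R ≤ (nk k M : ℝ)), c' * R := by
          apply sum_le_sum
          intro k hk
          rw [mem_filter, not_le] at hk
          exact hk.2.le
      _ ≤ ∑ k ∈ Icc 1 X, c' * R := by
          apply sum_le_sum_of_subset_of_nonneg (filter_subset _ _)
          intro k _ _
          have : 0 < c' := lt_min (by positivity) (by positivity)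
          positivity
      _ = X * (c' * R) := by
          rw [sum_const, nsmul_eq_mul, Nat.card_Icc]
          simp
      _ ≤ X * (c / 2 * R) := by gcongr
      _ = _ := by ring
  have hgood : c / 2 * (X * R) ≤ ∑ k ∈ G, (nk k M : ℝ) := by
    have h1 := sum_filter_add_sum_filter_not (Icc 1 X) (fun k => c' * R ≤ (nk k M : ℝ))
      (fun k => (nk k M : ℝ))
    linarith
  have hcs : (∑ k ∈ G, (nk k M : ℝ)) ^ 2 ≤ (G.card : ℝ) * ∑ k ∈ G, (nk k M : ℝ) ^ 2 :=
    sq_sum_le_card_mul_sum_sq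
  have hG2 : ∑ k ∈ G, (nk k M : ℝ) ^ 2 ≤ 2 * C * X * R ^ 2 :=
    (sum_le_sum_of_subset_of_nonneg (filter_subset _ _) (fun k _ _ => by positivity)).trans hsec2
  have h5 : (c / 2 * (X * R)) ^ 2 ≤ (G.card : ℝ) * (2 * C * X * R ^ 2) := by
    calc (c / 2 * (X * R)) ^ 2 ≤ (∑ k ∈ G, (nk k M : ℝ)) ^ 2 := by gcongr
      _ ≤ _ := hcs
      _ ≤ _ := by gcongr
  have h6 : c ^ 2 / (8 * C) * X ≤ (G.card : ℝ) := by
    have h7 : (c / 2 * (X * R)) ^ 2 = (c ^ 2 / (8 * C) * X) * (2 * C * X * R ^ 2) := by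
      field_simp
      ring
    rw [h7] at h5
    exact le_of_mul_le_mul_right h5 (by positivity)
  calc c' * X ≤ c ^ 2 / (8 * C) * X := by gcongr
    _ ≤ _ := h6

end Pool.Agent.H96.FM
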